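import Pool.Agent.helper19.MX.SpecD

set_option autoImplicit false

namespace MX

open Pool.Agent.helper53.AU AN
open scoped Classical Topology

theorem QEL_ind (E F : Type) [Field E] [Field F] [Algebra E F] (y : F) (φ : E)
    (hy : y ^ 2 + y = algebraMap E F φ) (hφ : ∀ w : E, w ^ 2 + w ≠ φ) :
    ∀ a b : E, algebraMap E F a + algebraMap E F b * y = 0 → a = 0 ∧ b = 0 := by
  intro a b hab
  have hinj : Function.Injective (algebraMap E F) := (algebraMap E F).injective
  by_cases hb : b = 0
  · rw [hb, map_zero, zero_mul, add_zero] at hab
    exact ⟨hinj (by rw [hab, map_zero]), hb⟩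
  · exfalso
    have hbF : algebraMap E F b ≠ 0 := by
      intro h
      exact hb (hinj (by rw [h, map_zero]))
    have hyw : y = algebraMap E F (-a / b) := by
      rw [map_div₀, map_neg, eq_div_iff hbF]
      linear_combination hab
    apply hφ (-a / b)
    apply hinj
    rw [← hy, map_add, map_pow, ← hyw]

theorem QEL : QEL_stmt := by
  intro E F _ _ _ _ y φ hy htop hφ
  have hind := QEL_ind E F y φ hy hφ
  have hfr : Module.finrank E F = 2 := by
    let p : Polynomial E := Polynomial.X ^ 2 + Polynomial.X - Polynomial.C φ
    have hdeg : p.natDegree = 2 := by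
      show (Polynomial.X ^ 2 + Polynomial.X - Polynomial.C φ : Polynomial E).natDegree = 2
      compute_degree!
    have hmon : p.Monic := by
      show (Polynomial.X ^ 2 + Polynomial.X - Polynomial.C φ : Polynomial E).Monic
      monicity!
    have hirr : Irreducible p := by
      rw [Polynomial.Monic.irreducible_iff_roots_eq_zero_of_degree_le_three hmon
        (by rw [hdeg]) (by rw [hdeg]; norm_num)]
      rw [Multiset.eq_zero_iff_forall_notMem]
      intro w hw
      have h1 : p.IsRoot w := Polynomial.isRoot_of_mem_roots hw
      have h2 : w ^ 2 + w - φ = 0 := by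
        have h3 : p.eval w = 0 := h1
        simpa [p] using h3
      exact hφ w (sub_eq_zero.1 h2)
    have hroot : Polynomial.aeval y p = 0 := by
      simp only [p, map_sub, map_add, map_pow, Polynomial.aeval_X, Polynomial.aeval_C]
      rw [hy, sub_self]
    have hmin : minpoly E y = p := (minpoly.eq_of_irreducible_of_monic hirr hroot hmon).symm
    have hint : IsIntegral E y := ⟨p, hmon, hroot⟩
    have h1 := IntermediateField.adjoin.finrank hint
    rw [hmin, hdeg, htop] at h1
    rw [← h1]
    exact (IntermediateField.finrank_top').symm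
  refine ⟨hfr, ?_, hind⟩
  intro z
  have hli : LinearIndependent E ![(1 : F), y] := by
    rw [LinearIndependent.pair_iff]
    intro s t hst
    apply hind s t
    rw [Algebra.smul_def, Algebra.smul_def, mul_one] at hst
    exact hst
  have hspan := hli.span_eq_top_of_card_eq_finrank (by rw [hfr]; rfl)
  have hz : z ∈ Submodule.span E (Set.range ![(1 : F), y]) := by
    rw [hspan]; exact Submodule.mem_top
  have hr : Set.range ![(1 : F), y] = {1, y} := by
    ext u
    constructor
    · rintro ⟨i, rfl⟩
      fin_cases i
      · exact Or.inl rfl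
      · exact Or.inr rfl
    · rintro (h | h)
      · exact ⟨0, h.symm⟩
      · exact ⟨1, h.symm⟩
  rw [hr, Submodule.mem_span_pair] at hz
  obtain ⟨a, b, hab⟩ := hz
  refine ⟨a, b, ?_⟩
  rw [← hab, Algebra.smul_def, Algebra.smul_def, mul_one]

end MX
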